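import Mathlib
import Pool.Agent.W448.FF.Stmts

/-! # Project FF: the lower bound for the out-degree variance -/

set_option autoImplicit false

namespace Pool.Agent.W308.FF

open Finset Filter Topology
open Pool.Agent.W448.FF

section
variable {V : Type} (G : OG V) (w : V → ℝ)

theorem o_nonneg (u v : V) : 0 ≤ o G u v := by
  unfold o
  split_ifs <;> norm_num

theorem o_le_one (u v : V) : o G u v ≤ 1 := by
  unfold o
  split_ifs <;> norm_num

theorem nn_le_one (u v : V) : nn G u v ≤ 1 := by
  unfold nn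
  split_ifs <;> norm_num

theorem o_add (u v : V) : o G u v + o G v u = 1 - nn G u v := by
  unfold o nn OG.adj
  by_cases h1 : G.arc u v
  · have h2 := G.asymm u v h1
    simp [h1, h2]
  · by_cases h2 : G.arc v u
    · simp [h1, h2]
    · simp [h1, h2]

theorem yo_nonneg (hw : ∀ v, 0 ≤ w v) (A : Finset V) (v : V) : 0 ≤ yo G w A v :=
  sum_nonneg fun u _ => mul_nonneg (hw u) (o_nonneg G v u)

theorem yo_le (hw : ∀ v, 0 ≤ w v) (A : Finset V) (v : V) : yo G w A v ≤ ∑ u ∈ A, w u := by
  unfold yo
  apply sum_le_sum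
  intro u _
  have := mul_le_mul_of_nonneg_left (o_le_one G v u) (hw u)
  linarith

theorem dI_nonneg (hw : ∀ v, 0 ≤ w v) (A : Finset V) : 0 ≤ dI G w A := by
  unfold dI
  refine sum_nonneg fun u _ => sum_nonneg fun v _ => ?_
  have := nn_le_one G u v
  exact mul_nonneg (mul_nonneg (hw u) (hw v)) (by linarith)

/-- the ordered weight of the adjacent pairs -/
theorem dI_eq (A : Finset V) : dI G w A = 2 * ∑ v ∈ A, w v * yo G w A v := by
  have h1 : ∑ v ∈ A, w v * yo G w A v = ∑ u ∈ A, ∑ v ∈ A, w u * w v * o G u v := by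
    refine sum_congr rfl fun u _ => ?_
    unfold yo
    rw [mul_sum]
    exact sum_congr rfl fun v _ => by ring
  have h2 : ∑ v ∈ A, w v * yo G w A v = ∑ u ∈ A, ∑ v ∈ A, w u * w v * o G v u := by
    rw [h1, sum_comm]
    exact sum_congr rfl fun u _ => sum_congr rfl fun v _ => by ring
  have h3 : dI G w A = (∑ u ∈ A, ∑ v ∈ A, w u * w v * o G u v) +
      ∑ u ∈ A, ∑ v ∈ A, w u * w v * o G v u := by
    unfold dI
    rw [← sum_add_distrib]
    refine sum_congr rfl fun u _ => ?_
    rw [← sum_add_distrib]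
    refine sum_congr rfl fun v _ => ?_
    rw [← o_add]
    ring
  rw [h3, ← h1, ← h2]
  ring

end

/-- the elementary inequality -/
theorem sq_ineq {x r y a : ℝ} (hr : 0 ≤ r) (hy : 0 ≤ y) (ha : 0 ≤ a) (hx : x ≤ -(r - y) + a) :
    (max (r - y) 0) ^ 2 ≤ x ^ 2 + 2 * r * a := by
  rcases le_total (r - y) 0 with h | h
  · rw [max_eq_right h]
    have := mul_nonneg hr ha
    nlinarith [sq_nonneg x]
  · rw [max_eq_left h]
    rcases le_total a (r - y) with h1 | h1
    · have h2 : ((r - y) - a) ^ 2 ≤ (-x) ^ 2 :=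
        pow_le_pow_left₀ (by linarith) (by linarith) 2
      rw [neg_sq] at h2
      nlinarith [mul_nonneg hy ha, sq_nonneg a]
    · nlinarith [mul_nonneg hr ha, sq_nonneg x, mul_nonneg hy ha,
        mul_nonneg h (sub_nonneg.mpr h1)]

theorem univ3 : ∀ i j k : Fin 3, i ≠ j → i ≠ k → j ≠ k →
    (univ : Finset (Fin 3)) = {i, j, k} := by decide

theorem xx (h1 : S_TH) (h2 : S_INT) : S_XX := by
  classical
  intro V _ G w hC hW p i j k hij hik hjk r τ hτ hτr hk hri hrj hΘ
  have hw := hW.1
  have hr : 0 ≤ r := hτ.trans hτr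
  set A := part p i with hA
  set B := part p j with hB
  have hdisj : Disjoint A B := by
    rw [hA, hB, disjoint_left]
    intro v hv hv'
    simp only [part, mem_filter, mem_univ, true_and] at hv hv'
    exact hij (hv.symm.trans hv')
  have hP : ∀ c, P w p c = ∑ v ∈ part p c, w v := by
    intro c
    unfold P part
    rw [sum_filter]
  have huniv := univ3 i j k hij hik hjk
  have hsplit : ∀ f : V → ℝ, ∑ v, f v = ∑ v ∈ A, f v + ∑ v ∈ B, f v + ∑ v ∈ part p k, f v := by
    intro f
    have h3 := sum_fiberwise (univ : Finset V) p f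
    rw [← h3, huniv, sum_insert (by simp [hij, hik]), sum_insert (by simp [hjk]), sum_singleton]
    simp only [hA, hB, part]
    ring
  have hX : ∀ v, X G w v ≤ yo G w A v + yo G w B v + (1 / 3 - r) := by
    intro v
    have h3 : X G w v = yo G w A v + yo G w B v + yo G w (part p k) v := by
      unfold X yo
      exact hsplit _
    have h4 := yo_le G w hw (part p k) v
    rw [← hP] at h4
    have h5 : P w p k = 1 / 3 - r := by
      unfold ep at hk
      linarith
    rw [h3]
    linarith
  have hRHS : 0 ≤ ∑ v, w v * (X G w v - 1 / 3) ^ 2 :=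
    sum_nonneg fun v _ => mul_nonneg (hw v) (sq_nonneg _)
  have hdA := dI_nonneg G w hw A
  have hdB := dI_nonneg G w hw B
  -- one part
  have hpart : ∀ (A B : Finset V), (∀ v, X G w v ≤ yo G w A v + yo G w B v + (1 / 3 - r)) →
      ∑ a ∈ A, w a * (max (r - yo G w B a) 0) ^ 2 ≤
        ∑ a ∈ A, w a * (X G w a - 1 / 3) ^ 2 + r * dI G w A := by
    intro A B hX
    rw [dI_eq]
    have h3 : r * (2 * ∑ v ∈ A, w v * yo G w A v) = ∑ v ∈ A, w v * (2 * r * yo G w A v) := by
      rw [mul_sum, mul_sum]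
      exact sum_congr rfl fun v _ => by ring
    rw [h3, ← sum_add_distrib]
    apply sum_le_sum
    intro v _
    rw [← mul_add]
    apply mul_le_mul_of_nonneg_left _ (hw v)
    apply sq_ineq hr (yo_nonneg G w hw B v) (yo_nonneg G w hw A v)
    have := hX v
    linarith
  -- the case of a strict inequality
  have key : ∀ τ' : ℝ, τ < τ' → τ' < r →
      2 * (r - τ') ^ 3 - 3 * r * (dI G w A + dI G w B) ≤
        3 * ∑ v, w v * (X G w v - 1 / 3) ^ 2 := by
    intro τ' hττ' hτ'r
    have hτ'0 : 0 < τ' := lt_of_le_of_lt hτ hττ'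
    have hΘ' : dI G w A + dI G w B + 4 * dM G w A B < τ' ^ 2 / 2 := by
      have : τ ^ 2 < τ' ^ 2 := by nlinarith
      linarith
    have hth := h1 V G w hC hw A B τ' hdisj hτ'0 hΘ'
    have hint := h2 V w hw A B (yo G w B) (yo G w A) (r - τ') τ' (by linarith) hτ'0.le
      (by
        intro s t hs ht
        rw [show τ' + (r - τ') = r by ring] at hs ht
        apply hth s t
        · rw [← hP]
          exact hs.trans hrj
        · rw [← hP]
          exact ht.trans hri)
    rw [show τ' + (r - τ') = r by ring] at hint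
    have e1 := hpart A B hX
    have e2 := hpart B A (fun v => by
      have := hX v
      linarith)
    have e3 : ∑ a ∈ A, w a * (X G w a - 1 / 3) ^ 2 + ∑ a ∈ B, w a * (X G w a - 1 / 3) ^ 2 ≤
        ∑ v, w v * (X G w v - 1 / 3) ^ 2 := by
      rw [hsplit]
      have : 0 ≤ ∑ v ∈ part p k, w v * (X G w v - 1 / 3) ^ 2 :=
        sum_nonneg fun v _ => mul_nonneg (hw v) (sq_nonneg _)
      linarith
    linarith
  rcases hτr.lt_or_eq with hlt | heq
  · have htend : Tendsto (fun t : ℝ => 2 * (r - t) ^ 3 - 3 * r * (dI G w A + dI G w B)) (𝓝[>] τ)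
        (𝓝 (2 * (r - τ) ^ 3 - 3 * r * (dI G w A + dI G w B))) := by
      apply Tendsto.mono_left _ nhdsWithin_le_nhds
      apply Continuous.tendsto
      fun_prop
    refine le_of_tendsto htend ?_
    filter_upwards [Ioo_mem_nhdsGT hlt] with t ht
    exact key t ht.1 ht.2
  · rw [heq, sub_self]
    have h3 : 0 ≤ r * (dI G w A + dI G w B) := mul_nonneg hr (by linarith)
    have h4 : 2 * (0 : ℝ) ^ 3 = 0 := by norm_num
    rw [h4]
    linarith

end Pool.Agent.W308.FF
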